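import Mathlib

set_option autoImplicit false

namespace Pool.Agent.H.MP_b13872_an

open Polynomial Filter Topology

/-- multiplier sequences, in terms of splitting over the reals -/
def MS (γ : ℕ → ℝ) : Prop :=
  ∀ p q : ℝ[X], p.Splits → (∀ k, q.coeff k = γ k * p.coeff k) → q.Splits

noncomputable def act (γ : ℕ → ℝ) (p : ℝ[X]) : ℝ[X] :=
  ∑ k ∈ Finset.range (p.natDegree + 1), C (γ k * p.coeff k) * X ^ k

theorem act_coeff (γ : ℕ → ℝ) (p : ℝ[X]) (k : ℕ) : (act γ p).coeff k = γ k * p.coeff k := by
  unfold act
  simp only [finset_sum_coeff, coeff_C_mul, coeff_X_pow, mul_ite, mul_one, mul_zero]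
  rw [Finset.sum_ite_eq]
  split_ifs with h
  · rfl
  · rw [coeff_eq_zero_of_natDegree_lt (by simpa using h), mul_zero]

theorem wr (z : ℂ) (hz : z.im ≠ 0) (p : ℝ[X]) (hp : p.Splits) :
    p = 0 ∨ (aeval z p ≠ 0 ∧ (derivative p = 0 ∨
      (aeval z (derivative p) * (starRingEnd ℂ) (aeval z p)).im * z.im < 0)) := by
  induction hp using Submonoid.closure_induction with
  | mem x hx =>
    rcases hx with ⟨a, rfl⟩ | ⟨a, rfl⟩
    · by_cases ha : a = 0
      · left; simp [ha]
      · right; exact ⟨by simpa using ha, Or.inl (by simp)⟩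
    · right
      refine ⟨?_, Or.inr ?_⟩
      · intro h
        apply hz
        have := congrArg Complex.im h
        simpa using this
      · simp
        exact hz
  | one => right; exact ⟨by simp, Or.inl (by simp)⟩
  | mul p q _ _ hp hq =>
    rcases hp with rfl | ⟨hp0, hp⟩
    · left; simp
    rcases hq with rfl | ⟨hq0, hq⟩
    · left; simp
    right
    refine ⟨by simp [hp0, hq0], ?_⟩
    have e : (aeval z (derivative (p * q)) * (starRingEnd ℂ) (aeval z (p * q))).im * z.im =
        (aeval z (derivative p) * (starRingEnd ℂ) (aeval z p)).im * z.im *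
          Complex.normSq (aeval z q) +
        (aeval z (derivative q) * (starRingEnd ℂ) (aeval z q)).im * z.im *
          Complex.normSq (aeval z p) := by
      simp only [derivative_mul, map_add, map_mul, Complex.normSq_apply, Complex.mul_im,
        Complex.mul_re, Complex.add_re, Complex.add_im, Complex.conj_re, Complex.conj_im]
      ring
    have h1 := Complex.normSq_pos.2 hp0
    have h2 := Complex.normSq_pos.2 hq0
    rcases hp with hp | hp <;> rcases hq with hq | hq
    · left; simp [derivative_mul, hp, hq]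
    · right; rw [e, hp]; simp only [map_zero, zero_mul, Complex.zero_im, zero_add]
      exact mul_neg_of_neg_of_pos hq h1
    · right; rw [e, hq]; simp only [map_zero, zero_mul, Complex.zero_im, add_zero]
      exact mul_neg_of_neg_of_pos hp h2
    · right; rw [e]
      have := mul_neg_of_neg_of_pos hq h1
      have := mul_neg_of_neg_of_pos hp h2
      linarith

theorem splits_iff (p : ℝ[X]) :
    p.Splits ↔ (p = 0 ∨ ∀ z : ℂ, aeval z p = 0 → z.im = 0) := by
  constructor
  · intro hp
    by_cases h0 : p = 0
    · exact Or.inl h0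
    · right
      intro z hz
      by_contra hne
      rcases wr z hne p hp with h | h
      · exact h0 h
      · exact h.1 hz
  · rintro (rfl | h)
    · exact Splits.zero
    · refine Splits.of_splits_map_of_injective (i := algebraMap ℝ ℂ) (algebraMap ℝ ℂ).injective
        (IsAlgClosed.splits _) ?_
      intro a ha
      have h1 := (mem_roots'.1 ha).2
      rw [IsRoot.def, eval_map_algebraMap] at h1
      exact ⟨a.re, by apply Complex.ext <;> simp [h a h1]⟩

theorem MS.congr {α β : ℕ → ℝ} (h : MS α) (e : ∀ k, α k = β k) : MS β := by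
  have : α = β := funext e
  rwa [← this]

theorem MS.mul {α β : ℕ → ℝ} (ha : MS α) (hb : MS β) : MS (fun k => α k * β k) := by
  intro p q hp hq
  refine ha (act β p) q (hb p _ hp (act_coeff β p)) ?_
  intro k
  rw [hq, act_coeff, mul_assoc]

theorem MS.const (c : ℝ) : MS (fun _ => c) := by
  intro p q hp hq
  have : q = C c * p := by ext k; simp [hq]
  rw [this]; exact hp.C_mul c

theorem MS.pow {α : ℕ → ℝ} (ha : MS α) (n : ℕ) : MS (fun k => α k ^ n) := by
  induction n with
  | zero => exact (MS.const 1).congr (by simp)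
  | succ n ih => exact (ih.mul ha).congr (fun k => by ring)

theorem MS.geo (s : ℝ) : MS (fun k => s ^ k) := by
  intro p q hp hq
  have : q = p.comp (C s * X) := by ext k; rw [hq, comp_C_mul_X_coeff, mul_comm]
  rw [this]
  exact hp.comp_of_natDegree_le_one ((natDegree_C_mul_le _ _).trans natDegree_X_le)

theorem MS.lin0 {θ : ℝ} (hθ : 0 ≤ θ) : MS (fun k => θ + k) := by
  intro p q hp hq
  have e : q = C θ * p + X * derivative p := by
    ext k
    rw [hq]
    cases k with
    | zero => simp
    | succ k => simp [coeff_X_mul, coeff_derivative]; ring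
  rw [splits_iff]
  by_cases h0 : q = 0
  · exact Or.inl h0
  right
  intro z hz
  by_contra hne
  rcases wr z hne p hp with h | ⟨h1, h | h⟩
  · apply h0; rw [e, h]; simp
  · rw [e, h] at hz h0
    simp only [mul_zero, add_zero, map_mul, aeval_C, mul_eq_zero, h1, or_false] at hz
    apply h0
    have : θ = 0 := by simpa using hz
    simp [this]
  · rw [e] at hz
    simp only [map_add, map_mul, aeval_C, aeval_X] at hz
    have h2 := congrArg (fun w => (w * (starRingEnd ℂ) z * (starRingEnd ℂ) (aeval z p)).im * z.im) hz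
    have h3 : (((algebraMap ℝ ℂ) θ * aeval z p + z * aeval z (derivative p)) * (starRingEnd ℂ) z *
        (starRingEnd ℂ) (aeval z p)).im * z.im =
        - (θ * Complex.normSq (aeval z p) * z.im ^ 2) + Complex.normSq z *
          ((aeval z (derivative p) * (starRingEnd ℂ) (aeval z p)).im * z.im) := by
      simp only [Complex.normSq_apply, Complex.mul_im, Complex.coe_algebraMap, Complex.ofReal_re,
        Complex.ofReal_im,
        Complex.mul_re, Complex.add_re, Complex.add_im, Complex.conj_re, Complex.conj_im]
      ring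
    simp only [zero_mul, Complex.zero_im] at h2
    rw [h3] at h2
    have hz0 : z ≠ 0 := by rintro rfl; simp at hne
    have h4 := mul_neg_of_pos_of_neg (Complex.normSq_pos.2 hz0) h
    have h5 : 0 ≤ θ * Complex.normSq (aeval z p) * z.im ^ 2 :=
      mul_nonneg (mul_nonneg hθ (Complex.normSq_nonneg _)) (sq_nonneg _)
    linarith

theorem MS.lin {θ d : ℝ} (hθ : 0 ≤ θ) (hd : 0 ≤ d) : MS (fun k => θ + k * d) := by
  rcases hd.eq_or_lt with rfl | hd
  · exact (MS.const θ).congr (by simp)
  · refine ((MS.const d).mul (MS.lin0 (div_nonneg hθ hd.le))).congr (fun k => ?_)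
    field_simp

theorem MS.delta (a : ℝ) : MS (fun k => if k = 0 then a else 0) := by
  intro p q hp hq
  have : q = C (a * p.coeff 0) := by
    ext k
    rw [hq, coeff_C]
    split_ifs with h
    · simp [h]
    · simp [h]
  rw [this]; exact Splits.C _

theorem MS.shift {γ : ℕ → ℝ} (h : MS γ) : MS (fun k => γ (k + 1)) := by
  intro p q hp hq
  refine Splits.of_X_mul (h (X * p) (X * q) (Splits.X.mul hp) ?_)
  intro k
  cases k with
  | zero => simp
  | succ k => simp [coeff_X_mul, hq]

theorem MS.shiftm {γ : ℕ → ℝ} (h : MS γ) (m : ℕ) : MS (fun k => γ (k + m)) := by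
  induction m with
  | zero => simpa using h
  | succ m ih => exact ih.shift.congr (fun k => by ring_nf)

theorem lag_aux (c : ℝ) (x : ℝ) (s : Multiset ℝ) : ∀ N : ℝ, (s.card : ℝ) ≤ N →
    N * (eval x (C c * (s.map (X - C ·)).prod) *
      eval x (derivative (derivative (C c * (s.map (X - C ·)).prod)))) ≤
    (N - 1) * (eval x (derivative (C c * (s.map (X - C ·)).prod))) ^ 2 := by
  induction s using Multiset.induction_on with
  | empty => intro N _; simp
  | cons a s ih =>
    intro N hN
    have e : C c * ((a ::ₘ s).map (X - C ·)).prod = (C c * (s.map (X - C ·)).prod) * (X - C a) := by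
      simp only [Multiset.map_cons, Multiset.prod_cons]; ring
    rw [e]
    generalize C c * (s.map (X - C ·)).prod = q at ih ⊢
    simp only [derivative_mul, derivative_sub, derivative_X, derivative_C, sub_zero, mul_one,
      derivative_add, eval_add, eval_mul, eval_sub, eval_X, eval_C]
    simp only [Multiset.card_cons, Nat.cast_add, Nat.cast_one] at hN
    have hc : (0 : ℝ) ≤ s.card := Nat.cast_nonneg _
    have h1 := ih (N - 1) (by linarith)
    set Q := eval x q
    set Q1 := eval x (derivative q)
    set Q2 := eval x (derivative (derivative q))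
    set u := x - a
    rcases (show (0 : ℝ) ≤ N - 1 by linarith).eq_or_lt with h0 | h0
    · have hN1 : N = 1 := by linarith
      have h2 := ih 1 (by linarith)
      subst hN1
      have h3 : Q1 = 0 := by
        have : Q1 ^ 2 ≤ 0 := by linarith
        exact pow_eq_zero_iff (two_ne_zero) |>.1 (le_antisymm this (sq_nonneg _))
      rw [h3] at h2 ⊢
      have : u ^ 2 * (Q * Q2) ≤ 0 := mul_nonpos_of_nonneg_of_nonpos (sq_nonneg _) (by linarith)
      nlinarith
    · have h4 : N * u ^ 2 * ((N - 1) * (Q * Q2)) ≤ N * u ^ 2 * ((N - 1 - 1) * Q1 ^ 2) :=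
        mul_le_mul_of_nonneg_left h1 (mul_nonneg (by linarith) (sq_nonneg _))
      refine le_of_mul_le_mul_left ?_ h0
      nlinarith [sq_nonneg (u * Q1 - (N - 1) * Q)]

theorem lag {p : ℝ[X]} (hp : p.Splits) (N : ℕ) (hN : p.natDegree ≤ N) (x : ℝ) :
    N * (eval x p * eval x (derivative (derivative p))) ≤
      (N - 1) * (eval x (derivative p)) ^ 2 := by
  have := lag_aux p.leadingCoeff x p.roots N (by
    rw [← hp.natDegree_eq_card_roots]; exact_mod_cast hN)
  rwa [← hp.eq_prod_roots] at this

theorem MS.sign {γ : ℕ → ℝ} (h : MS γ) : 0 ≤ γ 0 * γ 2 := by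
  have hp : ((X - C 1) * (X + C 1) : ℝ[X]).Splits := (Splits.X_sub_C 1).mul (Splits.X_add_C 1)
  have e : ((X - C 1) * (X + C 1) : ℝ[X]) = X ^ 2 - 1 := by simp only [map_one]; ring
  rw [e] at hp
  have hq := h _ (C (γ 2) * X ^ 2 - C (γ 0)) hp (by
    intro k
    simp only [coeff_sub, coeff_C_mul, coeff_X_pow, coeff_C, coeff_one]
    split_ifs with h1 h2 h2
    · omega
    · simp [h1]
    · simp [h2]
    · simp)
  have := lag hq 2 (by compute_degree) 0
  simp at this
  nlinarith

end Pool.Agent.H.MP_b13872_an
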