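import Mathlib
import Pool.Agent.H.MP_b13872_an.A

set_option autoImplicit false

namespace Pool.Agent.H.MP_b13872_an

open Polynomial Filter Topology

/-- weighted differences -/
noncomputable def D (x : ℝ) (γ : ℕ → ℝ) : ℕ → ℕ → ℝ
  | 0, m => γ m
  | n + 1, m => x * D x γ n (m + 1) - D x γ n m

noncomputable def J (γ : ℕ → ℝ) (n m : ℕ) : ℝ[X] := act (fun k => γ (k + m)) ((X - C 1) ^ n)

theorem J_zero (γ : ℕ → ℝ) (m : ℕ) : J γ 0 m = C (γ m) := by
  ext k
  rw [J, act_coeff, pow_zero, coeff_one, coeff_C]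
  split_ifs with h <;> simp [h]

theorem J_succ (γ : ℕ → ℝ) (n m : ℕ) : J γ (n + 1) m = X * J γ n (m + 1) - J γ n m := by
  ext k
  have e : ((X - C 1) ^ (n + 1) : ℝ[X]) = X * (X - C 1) ^ n - (X - C 1) ^ n := by
    simp only [map_one]; ring
  rw [J, act_coeff, e, coeff_sub, coeff_sub, J, J, act_coeff]
  cases k with
  | zero => simp
  | succ k =>
    rw [coeff_X_mul, coeff_X_mul, act_coeff, show k + 1 + m = k + (m + 1) by ring]; ring

theorem J_deriv (γ : ℕ → ℝ) (n m : ℕ) :
    derivative (J γ (n + 1) m) = C ((n : ℝ) + 1) * J γ n (m + 1) := by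
  ext k
  have e : derivative ((X - C 1) ^ (n + 1) : ℝ[X]) = C ((n : ℝ) + 1) * (X - C 1) ^ n := by
    rw [derivative_X_sub_C_pow]; simp
  have e2 := congrArg (fun p => coeff p k) e
  simp only [coeff_derivative, coeff_C_mul] at e2
  rw [coeff_derivative, coeff_C_mul, J, J, act_coeff, act_coeff, mul_assoc, e2,
    show k + 1 + m = k + (m + 1) by ring]
  ring

theorem J_eval (x : ℝ) (γ : ℕ → ℝ) (n : ℕ) : ∀ m, eval x (J γ n m) = D x γ n m := by
  induction n with
  | zero => intro m; simp [J_zero, D]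
  | succ n ih => intro m; simp [J_succ, D, ih]

theorem J_deg (γ : ℕ → ℝ) (n m : ℕ) : (J γ n m).natDegree ≤ n := by
  rw [natDegree_le_iff_coeff_eq_zero]
  intro N hN
  rw [J, act_coeff, coeff_eq_zero_of_natDegree_lt, mul_zero]
  rw [natDegree_pow, natDegree_X_sub_C]; omega

theorem MS.turan {γ : ℕ → ℝ} (h : MS γ) (x : ℝ) (n m : ℕ) :
    D x γ n m * D x γ n (m + 2) ≤ D x γ n (m + 1) ^ 2 := by
  have hs : (J γ (n + 2) m).Splits :=
    h.shiftm m _ _ ((Splits.X_sub_C 1).pow _) (act_coeff _ _)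
  have := lag hs (n + 2) (J_deg _ _ _) x
  rw [J_deriv, derivative_C_mul, J_deriv] at this
  simp only [eval_mul, eval_C, J_eval, D] at this
  push_cast at this
  have hn : (0 : ℝ) < ((n : ℝ) + 2) ^ 2 * (n + 1) := by positivity
  refine le_of_mul_le_mul_left ?_ hn
  simp only [show m + 1 + 1 = m + 2 by ring] at this
  nlinarith

theorem seq_mono (b : ℕ → ℝ) (hp : ∀ k, 0 < b k) (hl : ∀ k, b k * b (k + 2) ≤ b (k + 1) ^ 2)
    (c : ℝ) (hc : 0 < c) (M : ℕ) (hM : ∀ k, M ≤ k → c ≤ b k) : b 0 ≤ b 1 := by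
  by_contra hlt
  push Not at hlt
  set ρ := b 1 / b 0 with hρ
  have hρ0 : 0 < ρ := div_pos (hp 1) (hp 0)
  have hρ1 : ρ < 1 := (div_lt_one (hp 0)).2 hlt
  have h1 : ∀ k, b (k + 1) ≤ ρ * b k := by
    intro k
    induction k with
    | zero => rw [hρ, div_mul_cancel₀ _ (hp 0).ne']
    | succ k ih =>
      refine le_of_mul_le_mul_left ?_ (hp k)
      have := mul_le_mul_of_nonneg_left ih (hp (k + 1)).le
      nlinarith [hl k]
  have h2 : ∀ k, b k ≤ ρ ^ k * b 0 := by
    intro k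
    induction k with
    | zero => simp
    | succ k ih =>
      calc b (k + 1) ≤ ρ * b k := h1 k
        _ ≤ ρ * (ρ ^ k * b 0) := mul_le_mul_of_nonneg_left ih hρ0.le
        _ = _ := by ring
  have h3 : Tendsto (fun k => ρ ^ k * b 0) atTop (𝓝 0) := by
    simpa using (tendsto_pow_atTop_nhds_zero_of_lt_one hρ0.le hρ1).mul_const (b 0)
  have h4 : c ≤ 0 := ge_of_tendsto h3 ((eventually_ge_atTop M).mono fun k hk =>
    (hM k hk).trans (h2 k))
  linarith

theorem D_zero (x : ℝ) (n : ℕ) : ∀ m, D x (fun _ => 0) n m = 0 := by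
  induction n with
  | zero => intro m; rfl
  | succ n ih => intro m; simp [D, ih]

theorem MS.D_lower {γ : ℕ → ℝ} (h : MS γ) (h0 : ∀ k, 0 ≤ γ k) (hm : Monotone γ) {x : ℝ}
    (hx : 1 < x) (n : ℕ) :
    ∀ m, (x - 1) ^ n * γ m ≤ D x γ n m ∧ (0 < D x γ n m → 0 < D x γ n (m + 1)) := by
  by_cases hz : ∀ k, γ k = 0
  · have : γ = fun _ => 0 := funext hz
    subst this
    intro m
    simp [D_zero]
  push Not at hz
  obtain ⟨M, hM⟩ := hz
  have hM0 : 0 < γ M := lt_of_le_of_ne (h0 M) hM.symm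
  induction n with
  | zero =>
    intro m
    simp only [D, pow_zero, one_mul, le_refl, true_and]
    exact fun h => h.trans_le (hm (Nat.le_succ m))
  | succ n ih =>
    have hx1 : 0 < x - 1 := by linarith
    have hn : ∀ m, 0 ≤ D x γ n m := fun m =>
      (mul_nonneg (pow_nonneg hx1.le _) (h0 m)).trans (ih m).1
    have key : ∀ m, D x γ n m ≤ D x γ n (m + 1) := by
      intro m
      rcases (hn m).eq_or_lt with h1 | h1
      · rw [← h1]; exact hn _
      · have hp : ∀ k, 0 < D x γ n (m + k) := by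
          intro k
          induction k with
          | zero => exact h1
          | succ k ihk => exact (ih (m + k)).2 ihk
        refine seq_mono (fun k => D x γ n (m + k)) hp (fun k => h.turan x n (m + k))
          ((x - 1) ^ n * γ M) (mul_pos (pow_pos hx1 _) hM0) M (fun k hk => ?_)
        exact (mul_le_mul_of_nonneg_left (hm (by omega)) (pow_nonneg hx1.le _)).trans
          (ih (m + k)).1
    have k2 : ∀ m, (x - 1) * D x γ n m ≤ D x γ (n + 1) m := by
      intro m
      simp only [D]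
      nlinarith [key m, hn m]
    intro m
    refine ⟨?_, fun h1 => ?_⟩
    · calc (x - 1) ^ (n + 1) * γ m = (x - 1) * ((x - 1) ^ n * γ m) := by ring
        _ ≤ (x - 1) * D x γ n m := mul_le_mul_of_nonneg_left (ih m).1 hx1.le
        _ ≤ _ := k2 m
    · have h2 : 0 < D x γ n (m + 1) := by
        simp only [D] at h1
        by_contra h3
        have : D x γ n (m + 1) = 0 := le_antisymm (not_lt.1 h3) (hn _)
        rw [this] at h1
        linarith [hn m]
      exact (mul_pos hx1 h2).trans_le (k2 _)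

theorem MS.D_one {γ : ℕ → ℝ} (h : MS γ) (h0 : ∀ k, 0 ≤ γ k) (hm : Monotone γ) (n m : ℕ) :
    0 ≤ D 1 γ n m := by
  have hc : Continuous (fun x => D x γ n m) := by
    simp only [← J_eval]; exact Polynomial.continuous _
  have ht : Tendsto (fun x => D x γ n m) (𝓝[>] 1) (𝓝 (D 1 γ n m)) :=
    (hc.tendsto 1).mono_left nhdsWithin_le_nhds
  refine ge_of_tendsto ht (eventually_nhdsWithin_of_forall fun x hx => ?_)
  have hx' : (1 : ℝ) < x := hx
  exact (mul_nonneg (pow_nonneg (by linarith) _) (h0 m)).trans (h.D_lower h0 hm hx' n m).1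

theorem MS.tail_pos {γ : ℕ → ℝ} (h : MS γ) {v : ℝ} (hv : 0 < v) (ht : ∀ k, γ (k + 1) = v) :
    γ 0 = v := by
  have h1 := h.sign
  have h2 := h.turan 1 0 0
  simp only [D] at h2
  have e1 : γ 1 = v := ht 0
  have e2 : γ 2 = v := ht 1
  rw [e2] at h1
  rw [zero_add, zero_add, e1, e2] at h2
  have h3 : 0 ≤ γ 0 := by
    by_contra h4
    nlinarith
  have h4 : γ 0 ≤ v := by nlinarith
  have h5 := h.D_one (fun k => by cases k with
      | zero => exact h3
      | succ k => rw [ht]; exact hv.le) (monotone_nat_of_le_succ fun k => by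
        cases k with
        | zero => rw [ht]; exact h4
        | succ k => rw [ht, ht]) 2 0
  simp only [D, zero_add, show 1 + 1 = 2 by rfl, e1, e2] at h5
  linarith

theorem MS.tail {γ : ℕ → ℝ} (h : MS γ) {v : ℝ} (hv : v ≠ 0) (ht : ∀ k, γ (k + 1) = v) :
    γ 0 = v := by
  rcases lt_or_gt_of_ne hv with h1 | h1
  · have := ((MS.const (-1)).mul h).tail_pos (v := -v) (by linarith) (fun k => by simp [ht])
    linarith
  · exact h.tail_pos h1 ht

/-- a completely monotone array is log-convex -/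
theorem cm_convex (E : ℕ → ℕ → ℝ) (h0 : ∀ n ν, 0 ≤ E n ν)
    (hs : ∀ n ν, E (n + 1) ν = E n ν - E n (ν + 1)) : E 0 1 ^ 2 ≤ E 0 0 * E 0 2 := by
  let Λ : ℝ[X] →ₗ[ℝ] ℝ := (basisMonomials ℝ).constr ℝ (fun k => E 0 k)
  have hX : ∀ k, Λ (X ^ k) = E 0 k := by
    intro k
    have := (basisMonomials ℝ).constr_basis ℝ (fun k => E 0 k) k
    rw [coe_basisMonomials] at this
    rw [← monomial_one_right_eq_X_pow]
    exact this
  have hE : ∀ n ν, Λ (X ^ ν * (1 - X) ^ n) = E n ν := by
    intro n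
    induction n with
    | zero => intro ν; simp [hX]
    | succ n ih =>
      intro ν
      rw [hs, ← ih, ← ih, ← map_sub]
      congr 1; ring
  have hb : ∀ n ν, 0 ≤ Λ (bernsteinPolynomial ℝ n ν) := by
    intro n ν
    have : bernsteinPolynomial ℝ n ν = ((n.choose ν : ℕ) : ℝ) • (X ^ ν * (1 - X) ^ (n - ν)) := by
      rw [bernsteinPolynomial, smul_eq_C_mul, mul_assoc]; simp
    rw [this, map_smul, hE]
    exact mul_nonneg (Nat.cast_nonneg _) (h0 _ _)
  have key : ∀ (a : ℝ) (n : ℕ), 0 ≤ (n : ℝ) * (n - 1) * E 0 2 + (1 - 2 * n * a) * (n * E 0 1) +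
      (n * a) ^ 2 * E 0 0 := by
    intro a n
    have s0 := congrArg Λ (bernsteinPolynomial.sum ℝ n)
    have s1 := congrArg Λ (bernsteinPolynomial.sum_smul ℝ n)
    have s2 := congrArg Λ (bernsteinPolynomial.sum_mul_smul ℝ n)
    have x0 := hX 0
    have x1 := hX 1
    rw [pow_zero] at x0
    rw [pow_one] at x1
    simp only [map_sum, map_nsmul, x0, x1, hX] at s0 s1 s2
    simp only [nsmul_eq_mul] at s1 s2
    have c2 : ∀ k : ℕ, ((k * (k - 1) : ℕ) : ℝ) = (k : ℝ) * (k - 1) := by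
      intro k
      cases k with
      | zero => simp
      | succ k => simp
    simp only [c2] at s2
    rw [← s2, ← s1, ← s0, Finset.mul_sum, Finset.mul_sum, ← Finset.sum_add_distrib,
      ← Finset.sum_add_distrib]
    refine Finset.sum_nonneg fun ν _ => ?_
    have := mul_nonneg (sq_nonneg ((ν : ℝ) - n * a)) (hb n ν)
    nlinarith
  have k2 : ∀ a : ℝ, 0 ≤ E 0 2 - 2 * a * E 0 1 + a ^ 2 * E 0 0 := by
    intro a
    have ht : Tendsto (fun n : ℕ => E 0 2 - 2 * a * E 0 1 + a ^ 2 * E 0 0 + (E 0 1 - E 0 2) / n)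
        atTop (𝓝 (E 0 2 - 2 * a * E 0 1 + a ^ 2 * E 0 0)) := by
      simpa using (tendsto_const_div_atTop_nhds_zero_nat (E 0 1 - E 0 2)).const_add
        (E 0 2 - 2 * a * E 0 1 + a ^ 2 * E 0 0)
    refine ge_of_tendsto ht ((eventually_gt_atTop 0).mono fun n hn => ?_)
    have hn' : (0 : ℝ) < n := by exact_mod_cast hn
    have e : E 0 2 - 2 * a * E 0 1 + a ^ 2 * E 0 0 + (E 0 1 - E 0 2) / n =
        ((n : ℝ) * (n - 1) * E 0 2 + (1 - 2 * n * a) * (n * E 0 1) + (n * a) ^ 2 * E 0 0) /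
          (n : ℝ) ^ 2 := by
      field_simp; ring
    rw [e]
    exact div_nonneg (key a n) (by positivity)
  have := discrim_le_zero (a := E 0 0) (b := -2 * E 0 1) (c := E 0 2) (fun a => by
    have := k2 a
    nlinarith)
  unfold discrim at this
  nlinarith

end Pool.Agent.H.MP_b13872_an
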