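import Mathlib
import Pool.Agent.H.MP_b13872_an.B

set_option autoImplicit false

namespace Pool.Agent.H.MP_b13872_an

open Polynomial Filter Topology

def Adm (Ψ : ℝ → ℝ → ℝ) : Prop :=
  ∀ α β : ℕ → ℝ, MS α → MS β → (∀ k, 0 ≤ α k) → (∀ k, 0 ≤ β k) → MS (fun k => Ψ (α k) (β k))

theorem triple {x0 x1 x2 : ℝ} (h0 : 0 < x0) (h1 : 0 < x1) (h2 : 0 < x2) (h : x0 * x2 ≤ x1 ^ 2) :
    ∃ γ : ℕ → ℝ, MS γ ∧ (∀ k, 0 ≤ γ k) ∧ γ 0 = x0 ∧ γ 1 = x1 ∧ γ 2 = x2 := by
  obtain ⟨w, hw0, hw⟩ : ∃ w : ℝ, 0 ≤ w ∧ w ^ 2 = x1 ^ 2 - x0 * x2 :=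
    ⟨√(x1 ^ 2 - x0 * x2), Real.sqrt_nonneg _, Real.sq_sqrt (by linarith)⟩
  have hwx : w < x1 := by
    by_contra hc
    have := mul_pos h0 h2
    nlinarith
  obtain ⟨σ, hσ⟩ : ∃ σ : ℝ, x0 * σ = x1 - w := ⟨(x1 - w) / x0, by field_simp⟩
  have hσ0 : 0 < σ := by
    by_contra hc
    nlinarith
  obtain ⟨d, hd⟩ : ∃ d : ℝ, σ * d = w := ⟨w / σ, by field_simp⟩
  have hd0 : 0 ≤ d := by
    by_contra hc
    nlinarith
  refine ⟨fun k => σ ^ k * (x0 + k * d), (MS.geo σ).mul (MS.lin h0.le hd0), fun k => by positivity,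
    by simp, ?_, ?_⟩
  · simp only [pow_one, Nat.cast_one, one_mul]; linarith
  · simp only [Nat.cast_ofNat]
    refine mul_left_cancel₀ h0.ne' ?_
    have : x0 * (σ ^ 2 * (x0 + 2 * d)) = (x0 * σ) ^ 2 + 2 * (x0 * σ) * (σ * d) := by ring
    rw [this, hσ, hd]; nlinarith

theorem Adm.three {Ψ : ℝ → ℝ → ℝ} (hΨ : Adm Ψ) {x0 x1 x2 y0 y1 y2 : ℝ} (h0 : 0 < x0) (h1 : 0 < x1)
    (h2 : 0 < x2) (h : x0 * x2 ≤ x1 ^ 2) (k0 : 0 < y0) (k1 : 0 < y1)
    (k2 : 0 < y2) (k : y0 * y2 ≤ y1 ^ 2) :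
    0 ≤ Ψ x0 y0 * Ψ x2 y2 ∧ Ψ x0 y0 * Ψ x2 y2 ≤ Ψ x1 y1 ^ 2 := by
  obtain ⟨α, a, a', a0, a1, a2⟩ := triple h0 h1 h2 h
  obtain ⟨β, b, b', b0, b1, b2⟩ := triple k0 k1 k2 k
  have := hΨ α β a b a' b'
  have s1 := this.sign
  have s2 := this.turan 1 0 0
  simp only [D, zero_add, a0, a1, a2, b0, b1, b2] at s1 s2
  exact ⟨s1, s2⟩

theorem Adm.neg {Ψ : ℝ → ℝ → ℝ} (hΨ : Adm Ψ) : Adm (fun x y => -Ψ x y) :=
  fun α β a b a' b' => ((MS.const (-1)).mul (hΨ α β a b a' b')).congr (fun k => by ring)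

theorem Adm.swap {Ψ : ℝ → ℝ → ℝ} (hΨ : Adm Ψ) : Adm (fun x y => Ψ y x) :=
  fun α β a b a' b' => hΨ β α b a b' a'

theorem affine (u : ℝ → ℝ) (hm : Monotone u)
    (h : ∀ s d, 0 ≤ d → u s + u (s + 2 * d) = 2 * u (s + d)) (s : ℝ) :
    u s = u 0 + (u 1 - u 0) * s := by
  have h1 : ∀ a b, u a + u b = 2 * u ((a + b) / 2) := by
    intro a b
    rcases le_total a b with hab | hab
    · have := h a ((b - a) / 2) (by linarith)
      rw [show a + 2 * ((b - a) / 2) = b by ring, show a + (b - a) / 2 = (a + b) / 2 by ring] at this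
      exact this
    · have := h b ((a - b) / 2) (by linarith)
      rw [show b + 2 * ((a - b) / 2) = a by ring, show b + (a - b) / 2 = (a + b) / 2 by ring] at this
      linarith
  let f : ℝ →+ ℝ := AddMonoidHom.mk' (fun s => u s - u 0) (fun a b => by
    have e1 := h1 a b
    have e2 := h1 (a + b) 0
    rw [add_zero] at e2
    linarith)
  have hc : Continuous f := by
    refine f.continuous_of_isBounded_nhds_zero (s := Set.Icc (-1) 1)
      (Icc_mem_nhds (by norm_num) (by norm_num)) ?_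
    refine (Metric.isBounded_Icc (u (-1) - u 0) (u 1 - u 0)).subset ?_
    rintro _ ⟨x, hx, rfl⟩
    exact ⟨sub_le_sub_right (hm hx.1) _, sub_le_sub_right (hm hx.2) _⟩
  have := map_real_smul f hc s 1
  simp only [smul_eq_mul, mul_one] at this
  change u s - u 0 = s * (u 1 - u 0) at this
  linarith

/-- iterated differences of a power function -/
noncomputable def T : ℕ → ℝ → ℝ → ℝ
  | 0, β, x => x ^ β
  | n + 1, β, x => T n β (x + 1) - T n β x

theorem T_deriv (n : ℕ) (β : ℝ) : ∀ x, 0 < x → HasDerivAt (T n β) (β * T n (β - 1) x) x := by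
  induction n with
  | zero =>
    intro x hx
    exact Real.hasDerivAt_rpow_const (Or.inl hx.ne')
  | succ n ih =>
    intro x hx
    have h1 := (ih (x + 1) (by linarith)).comp_add_const x 1
    have h2 := h1.sub (ih x hx)
    have e : β * T (n + 1) (β - 1) x = β * T n (β - 1) (x + 1) - β * T n (β - 1) x := by
      simp only [T]; ring
    rw [e]
    exact h2

theorem T_val (n : ℕ) : ∀ β x : ℝ, 0 < x → ∃ ξ : ℝ, 0 < ξ ∧
    T n β x = (∏ i ∈ Finset.range n, (β - i)) * ξ := by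
  induction n with
  | zero => intro β x hx; exact ⟨x ^ β, Real.rpow_pos_of_pos hx _, by simp [T]⟩
  | succ n ih =>
    intro β x hx
    obtain ⟨c, hc, hc'⟩ := exists_hasDerivAt_eq_slope (T n β) (fun y => β * T n (β - 1) y)
      (show x < x + 1 by linarith)
      (fun y hy => (T_deriv n β y (by linarith [hy.1])).continuousAt.continuousWithinAt)
      (fun y hy => T_deriv n β y (by linarith [hy.1]))
    obtain ⟨ξ, h1, h2⟩ := ih (β - 1) c (by linarith [hc.1])
    refine ⟨ξ, h1, ?_⟩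
    rw [Finset.prod_range_succ']
    simp only [T]
    rw [add_sub_cancel_left, div_one] at hc'
    rw [← hc', h2]
    have : ∏ i ∈ Finset.range n, (β - 1 - (i : ℝ)) =
        ∏ i ∈ Finset.range n, (β - ((i + 1 : ℕ) : ℝ)) :=
      Finset.prod_congr rfl fun i _ => by push_cast; ring
    rw [this]; simp; ring

theorem integral_exp {β : ℝ} (hβ : 0 ≤ β) (h : MS (fun k => ((k : ℝ) + 1) ^ β)) :
    ∃ m : ℕ, β = m := by
  by_contra hne
  push Not at hne
  have hD : ∀ n m, D 1 (fun k : ℕ => ((k : ℝ) + 1) ^ β) n m = T n β ((m : ℝ) + 1) := by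
    intro n
    induction n with
    | zero => intro m; rfl
    | succ n ih => intro m; simp only [D, T, ih, one_mul]; push_cast; rfl
  have h1 := h.D_one (fun k => by positivity) (fun a b hab =>
    Real.rpow_le_rpow (by positivity) (by simpa using hab) hβ) (⌊β⌋₊ + 2) 0
  rw [hD] at h1
  obtain ⟨ξ, h2, h3⟩ := T_val (⌊β⌋₊ + 2) β (((0 : ℕ) : ℝ) + 1) (by simp)
  rw [h3, Finset.prod_range_succ] at h1
  have h4 : 0 < ∏ i ∈ Finset.range (⌊β⌋₊ + 1), (β - (i : ℝ)) := by
    refine Finset.prod_pos fun i hi => ?_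
    have h5 : i ≤ ⌊β⌋₊ := by simpa [Nat.lt_succ_iff] using hi
    have h6 : (i : ℝ) ≤ β := (Nat.le_floor_iff hβ).1 h5
    exact sub_pos.2 (lt_of_le_of_ne h6 (hne i).symm)
  have h5 : β - ((⌊β⌋₊ + 1 : ℕ) : ℝ) < 0 := by
    have := Nat.lt_floor_add_one β
    push_cast; linarith
  have := mul_neg_of_neg_of_pos (mul_neg_of_pos_of_neg h4 h5) h2
  linarith

/-- iterated differences in a direction -/
noncomputable def F (G : ℝ → ℝ → ℝ) (h k : ℝ) : ℕ → ℝ → ℝ → ℝ
  | 0, s, t => G s t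
  | n + 1, s, t => F G h k n (s + h) (t + k) - F G h k n s t

theorem Adm.pos_case {Ψ : ℝ → ℝ → ℝ} (hΨ : Adm Ψ) (hp : ∀ x y, 0 < x → 0 < y → 0 ≤ Ψ x y) :
    ∃ (c : ℝ) (m n : ℕ), ∀ x y, 0 < x → 0 < y → Ψ x y = c * x ^ m * y ^ n := by
  have mono : ∀ x y x' y', 0 < x → 0 < y → x ≤ x' → y ≤ y' → Ψ x y ≤ Ψ x' y' := by
    intro x y x' y' hx hy hx' hy'
    have := (hΨ.three hx (hx.trans_le hx') hx (by nlinarith) hy (hy.trans_le hy') hy
      (by nlinarith)).2
    exact abs_le_of_sq_le_sq' (by nlinarith) (hp _ _ (by linarith) (by linarith)) |>.2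
  obtain ⟨G, hG⟩ : ∃ G : ℝ → ℝ → ℝ, ∀ s t, G s t = Ψ (Real.exp s) (Real.exp t) := ⟨_, fun _ _ => rfl⟩
  have G0 : ∀ s t, 0 ≤ G s t := fun s t => by
    rw [hG]; exact hp _ _ (Real.exp_pos _) (Real.exp_pos _)
  have Gm : ∀ s t s' t', s ≤ s' → t ≤ t' → G s t ≤ G s' t' := fun s t s' t' h1 h2 => by
    rw [hG, hG]
    exact mono _ _ _ _ (Real.exp_pos _) (Real.exp_pos _) (Real.exp_le_exp.2 h1)
      (Real.exp_le_exp.2 h2)
  have ge : ∀ s h : ℝ, MS (fun j : ℕ => Real.exp (s + j * h)) := fun s h =>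
    ((MS.const (Real.exp s)).mul (MS.geo (Real.exp h))).congr (fun j => by
      rw [Real.exp_add, Real.exp_nat_mul])
  have GM : ∀ s t h k : ℝ, MS (fun j : ℕ => G (s + j * h) (t + j * k)) := fun s t h k =>
    (hΨ _ _ (ge s h) (ge t k) (fun _ => (Real.exp_pos _).le)
      (fun _ => (Real.exp_pos _).le)).congr (fun j => (hG _ _).symm)
  have mid : ∀ s t h k, 0 ≤ h → 0 ≤ k →
      G s t * G (s + 2 * h) (t + 2 * k) = G (s + h) (t + k) ^ 2 := by
    intro s t h k hh hk
    have hD : ∀ (s t : ℝ) n m, D 1 (fun j : ℕ => G (s + j * h) (t + j * k)) n m =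
        F G h k n (s + m * h) (t + m * k) := by
      intro s t n
      induction n with
      | zero => intro m; rfl
      | succ n ih =>
        intro m
        simp only [D, F, ih, one_mul]
        congr 2 <;> push_cast <;> ring
    have hF : ∀ n s t, 0 ≤ F G h k n s t := by
      intro n s t
      have := (GM s t h k).D_one (fun _ => G0 _ _) (fun a b hab => by
        have : (a : ℝ) ≤ b := by exact_mod_cast hab
        exact Gm _ _ _ _ (by nlinarith) (by nlinarith)) n 0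
      rw [hD] at this
      simpa using this
    have h1 := cm_convex (fun n ν => F G h k n (s + 2 * h - (ν + n) * h) (t + 2 * k - (ν + n) * k))
      (fun n ν => hF _ _ _) (fun n ν => by
        simp only [F]
        congr 2 <;> push_cast <;> ring)
    have h2 := (GM s t h k).turan 1 0 0
    simp only [D, F] at h1 h2
    norm_num at h1 h2
    rw [show s + 2 * h - h = s + h by ring, show t + 2 * k - k = t + k by ring] at h1
    linarith
  by_cases hz : ∀ s t, G s t = 0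
  · refine ⟨0, 0, 0, fun x y hx hy => ?_⟩
    have := hz (Real.log x) (Real.log y)
    rw [hG, Real.exp_log hx, Real.exp_log hy] at this
    simp [this]
  push Not at hz
  obtain ⟨s0, t0, hz⟩ := hz
  have Gp : ∀ s t, 0 < G s t := by
    intro s t
    have h1 := mid s t |s0 - s| |t0 - t| (abs_nonneg _) (abs_nonneg _)
    have h2 := Gm s0 t0 (s + |s0 - s|) (t + |t0 - t|) (by linarith [le_abs_self (s0 - s)])
      (by linarith [le_abs_self (t0 - t)])
    have h3 : 0 < G s0 t0 := lt_of_le_of_ne (G0 _ _) hz.symm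
    refine lt_of_le_of_ne (G0 _ _) fun h4 => ?_
    rw [← h4, zero_mul] at h1
    nlinarith
  obtain ⟨g, hg⟩ : ∃ g : ℝ → ℝ → ℝ, ∀ s t, g s t = Real.log (G s t) := ⟨_, fun _ _ => rfl⟩
  have gm : ∀ s t s' t', s ≤ s' → t ≤ t' → g s t ≤ g s' t' := fun s t s' t' h1 h2 => by
    rw [hg, hg]; exact Real.log_le_log (Gp _ _) (Gm _ _ _ _ h1 h2)
  have gmid : ∀ s t h k, 0 ≤ h → 0 ≤ k →
      g s t + g (s + 2 * h) (t + 2 * k) = 2 * g (s + h) (t + k) := by
    intro s t h k hh hk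
    rw [hg, hg, hg, ← Real.log_mul (Gp _ _).ne' (Gp _ _).ne', mid s t h k hh hk, Real.log_pow]
    simp
  have a1 : ∀ s t, g s t = g 0 t + (g 1 t - g 0 t) * s := fun s t =>
    affine (fun s => g s t) (fun a b hab => gm _ _ _ _ hab le_rfl)
      (fun s d hd => by simpa using gmid s t d 0 hd le_rfl) s
  have a2 : ∀ s t, g s t = g s 0 + (g s 1 - g s 0) * t := fun s t =>
    affine (fun t => g s t) (fun a b hab => gm _ _ _ _ le_rfl hab)
      (fun t d hd => by simpa using gmid s t 0 d le_rfl hd) t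
  have kap : g 1 1 - g 1 0 = g 0 1 - g 0 0 := by
    have h1 := gmid 0 0 1 1 zero_le_one zero_le_one
    norm_num at h1
    have h2 := a1 2 2
    have h3 := a2 0 2
    have h4 := a2 1 2
    linarith
  have form : ∀ x y, 0 < x → 0 < y →
      Ψ x y = Real.exp (g 0 0) * x ^ (g 1 0 - g 0 0) * y ^ (g 0 1 - g 0 0) := by
    intro x y hx hy
    have h1 : Ψ x y = Real.exp (g (Real.log x) (Real.log y)) := by
      rw [hg, Real.exp_log (Gp _ _), hG, Real.exp_log hx, Real.exp_log hy]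
    rw [h1, Real.rpow_def_of_pos hx, Real.rpow_def_of_pos hy, ← Real.exp_add, ← Real.exp_add,
      a1, a2 0, a2 1, kap]
    congr 1; ring
  have l1 : MS (fun k : ℕ => (k : ℝ) + 1) := (MS.lin0 zero_le_one).congr (fun k => by ring)
  obtain ⟨m, hm⟩ := integral_exp (β := g 1 0 - g 0 0) (sub_nonneg.2 (gm _ _ _ _ zero_le_one le_rfl))
    (((MS.const (Real.exp (g 0 0))⁻¹).mul (hΨ _ _ l1 (MS.const 1) (fun k => by positivity)
      (fun _ => zero_le_one))).congr (fun k => by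
        rw [form _ _ (by positivity) one_pos, Real.one_rpow]
        have := Real.exp_pos (g 0 0)
        field_simp))
  obtain ⟨n, hn⟩ := integral_exp (β := g 0 1 - g 0 0) (sub_nonneg.2 (gm _ _ _ _ le_rfl zero_le_one))
    (((MS.const (Real.exp (g 0 0))⁻¹).mul (hΨ _ _ (MS.const 1) l1 (fun _ => zero_le_one)
      (fun k => by positivity))).congr (fun k => by
        rw [form _ _ one_pos (by positivity), Real.one_rpow]
        have := Real.exp_pos (g 0 0)
        field_simp))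
  refine ⟨Real.exp (g 0 0), m, n, fun x y hx hy => ?_⟩
  rw [form x y hx hy, hm, hn, Real.rpow_natCast, Real.rpow_natCast]

theorem Adm.quad {Ψ : ℝ → ℝ → ℝ} (hΨ : Adm Ψ) :
    ∃ (c : ℝ) (m n : ℕ), ∀ x y, 0 < x → 0 < y → Ψ x y = c * x ^ m * y ^ n := by
  by_cases hp : ∀ x y, 0 < x → 0 < y → 0 ≤ Ψ x y
  · exact hΨ.pos_case hp
  push Not at hp
  obtain ⟨x0, y0, hx0, hy0, hneg⟩ := hp
  obtain ⟨c, m, n, h⟩ := hΨ.neg.pos_case (fun x y hx hy => by
    have := (hΨ.three hx0 (add_pos hx0 hx) hx (by nlinarith) hy0 (add_pos hy0 hy) hy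
      (by nlinarith)).1
    by_contra hc
    nlinarith)
  exact ⟨-c, m, n, fun x y hx hy => by have := h x y hx hy; linarith⟩

theorem pow_const {d : ℝ} (hd : d ≠ 0) {n : ℕ} (h : d * 1 ^ n = d * 2 ^ n) : n = 0 := by
  have h1 := mul_left_cancel₀ hd h
  by_contra hn
  have : (1 : ℝ) ^ n < 2 ^ n := pow_lt_pow_left₀ (by norm_num) zero_le_one hn
  linarith

theorem Adm.axis {Ψ : ℝ → ℝ → ℝ} (hΨ : Adm Ψ) {c : ℝ} {m n : ℕ}
    (h : ∀ x y, 0 < x → 0 < y → Ψ x y = c * x ^ m * y ^ n) {x : ℝ} (hx : 0 < x) :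
    Ψ x 0 = c * x ^ m * 0 ^ n := by
  have l0 : MS (fun k : ℕ => (k : ℝ)) := (MS.lin0 le_rfl).congr (fun k => by ring)
  by_cases hv : Ψ x 0 = 0
  · by_contra hne
    rw [hv] at hne
    have hn : n = 0 := by
      by_contra hn
      simp [hn] at hne
    subst hn
    have := (hΨ _ _ (MS.const x) l0 (fun _ => hx.le) (fun k => by positivity)).tail
      (v := c * x ^ m * 0 ^ 0) (Ne.symm hne) (fun k => by rw [h _ _ hx (by positivity)]; simp)
    simp only [Nat.cast_zero] at this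
    rw [hv] at this
    exact hne this
  · have h1 : ∀ y, 0 < y → c * x ^ m * y ^ n = Ψ x 0 := by
      intro y hy
      have := (hΨ _ _ (MS.const x) (MS.delta y) (fun _ => hx.le)
        (fun k => by split_ifs <;> linarith)).tail hv (fun k => by simp)
      simp only [if_true] at this
      rw [← this, h _ _ hx hy]
    have h2 := h1 1 one_pos
    have h3 := h1 2 two_pos
    have hn : n = 0 := pow_const (d := c * x ^ m) (by
      intro h4; rw [h4] at h2; apply hv; simpa using h2.symm) (h2.trans h3.symm)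
    subst hn
    simpa using h2.symm

theorem Adm.main {Ψ : ℝ → ℝ → ℝ} (hΨ : Adm Ψ) :
    ∃ (c : ℝ) (m n : ℕ), ∀ x y, 0 ≤ x → 0 ≤ y → Ψ x y = c * x ^ m * y ^ n := by
  obtain ⟨c, m, n, h⟩ := hΨ.quad
  refine ⟨c, m, n, fun x y hx hy => ?_⟩
  rcases hx.eq_or_lt with rfl | hx <;> rcases hy.eq_or_lt with rfl | hy
  · have l0 : MS (fun k : ℕ => (k : ℝ)) := (MS.lin0 le_rfl).congr (fun k => by ring)
    by_cases hv : Ψ 0 0 = 0
    · by_contra hne
      rw [hv] at hne
      have hn : n = 0 := by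
        by_contra hn
        simp [hn] at hne
      have hm : m = 0 := by
        by_contra hm
        simp [hm] at hne
      subst hn hm
      have := (hΨ _ _ l0 l0 (fun k => by positivity) (fun k => by positivity)).tail
        (v := c * 0 ^ 0 * 0 ^ 0) (Ne.symm hne)
        (fun k => by rw [h _ _ (by positivity) (by positivity)]; simp)
      simp only [Nat.cast_zero] at this
      rw [hv] at this
      exact hne this
    · have h1 : ∀ x y, 0 < x → 0 < y → c * x ^ m * y ^ n = Ψ 0 0 := by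
        intro x y hx hy
        have := (hΨ _ _ (MS.delta x) (MS.delta y) (fun k => by split_ifs <;> linarith)
          (fun k => by split_ifs <;> linarith)).tail hv (fun k => by simp)
        simp only [if_true] at this
        rw [← this, h _ _ hx hy]
      have h2 := h1 1 1 one_pos one_pos
      have h3 := h1 1 2 one_pos two_pos
      have h4 := h1 2 1 two_pos one_pos
      have hc : c ≠ 0 := by
        intro h5; rw [h5] at h2; apply hv; simpa using h2.symm
      have hn : n = 0 := pow_const (d := c * 1 ^ m) (by simpa using hc) (h2.trans h3.symm)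
      have hm : m = 0 := pow_const (d := c) hc (by
        have := h2.trans h4.symm
        simpa using this)
      subst hn hm
      simpa using h2.symm
  · have := hΨ.swap.axis (c := c) (m := n) (n := m)
      (fun x y hx hy => by rw [h y x hy hx]; ring) hy
    rw [this]; ring
  · exact hΨ.axis h hx
  · exact h x y hx hy

theorem adm_iff (Ψ : ℝ → ℝ → ℝ) :
    Adm Ψ ↔ ∃ (c : ℝ) (m n : ℕ), ∀ x y, 0 ≤ x → 0 ≤ y → Ψ x y = c * x ^ m * y ^ n := by
  refine ⟨Adm.main, ?_⟩
  rintro ⟨c, m, n, h⟩ α β a b a' b'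
  exact (((MS.const c).mul (a.pow m)).mul (b.pow n)).congr (fun k => (h _ _ (a' k) (b' k)).symm)

end Pool.Agent.H.MP_b13872_an
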